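import Mathlib

/-!
# Weak solutions of the p-Laplace equation, Muckenhoupt weights: definitions
-/

open MeasureTheory Metric Set
open scoped ENNReal NNReal ContDiff InnerProductSpace

namespace Pool.Agent.Helper20.PNS

variable {E : Type} [NormedAddCommGroup E] [InnerProductSpace ℝ E] [FiniteDimensional ℝ E]
  [MeasurableSpace E] [BorelSpace E]

/-- The test functions on the open set `Ω`: smooth functions with compact support in `Ω`. -/
def IsTest (Ω : Set E) (φ : E → ℝ) : Prop :=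
  ContDiff ℝ ∞ φ ∧ HasCompactSupport φ ∧ tsupport φ ⊆ Ω

/-- `g` is the weak gradient of `u` in `Ω`. -/
def IsWeakGrad (Ω : Set E) (u : E → ℝ) (g : E → E) : Prop :=
  LocallyIntegrableOn u Ω ∧ LocallyIntegrableOn g Ω ∧
    ∀ φ : E → ℝ, IsTest Ω φ → ∀ v : E, ∫ x, u x * fderiv ℝ φ x v = -∫ x, φ x * ⟪g x, v⟫_ℝ

/-- `u` is a weak solution of the p-Laplace equation in `Ω`, with the weak gradient `g`. -/
def IsWeakSol (p : ℝ) (Ω : Set E) (u : E → ℝ) (g : E → E) : Prop :=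
  IsWeakGrad Ω u g ∧ (∀ K ⊆ Ω, IsCompact K → ∫⁻ x in K, ‖u x‖ₑ ^ p < ⊤) ∧
    (∀ K ⊆ Ω, IsCompact K → ∫⁻ x in K, ‖g x‖ₑ ^ p < ⊤) ∧
    ∀ φ : E → ℝ, IsTest Ω φ → ∫ x, ‖g x‖ ^ (p - 2) * fderiv ℝ φ x (g x) = 0

/-- In `D` (a ball, or the whole space) the vector field `g` is nonzero almost everywhere, and `|g|` is
a Muckenhoupt weight of class `A_q` with the constant `C`. -/
def IsMuckenhoupt (q : ℝ) (C : ℝ≥0) (D : Set E) (g : E → E) : Prop :=
  (∀ᵐ x ∂(volume.restrict D), g x ≠ 0) ∧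
  ∀ (y : E) (r : ℝ), 0 < r → ball y r ⊆ D →
    (⨍⁻ x in ball y r, ‖g x‖ₑ ∂volume) *
      (⨍⁻ x in ball y r, ‖g x‖ₑ ^ (-(1 / (q - 1))) ∂volume) ^ (q - 1) ≤ C

/-- For a space `E` of dimension `n`: if `|g|ᵖ`, `g` the gradient of a solution, has on the ball of
radius `10 (n + 2) R` a positive integral at most `2 ^ J` times the integral on the ball of radius `R`,
then `|g|` is a Muckenhoupt weight in the smaller ball, with `q` and `C`. -/
def LocalBound (E : Type) [NormedAddCommGroup E] [InnerProductSpace ℝ E] [FiniteDimensional ℝ E]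
    [MeasurableSpace E] [BorelSpace E] (n : ℕ) (p : ℝ) (J : ℕ) (q : ℝ) (C : ℝ≥0) : Prop :=
  ∀ (Ω : Set E) (u : E → ℝ) (g : E → E), IsOpen Ω → IsWeakSol p Ω u g →
    ∀ (x₀ : E) (R : ℝ), 0 < R → closedBall x₀ (10 * (n + 2) * R) ⊆ Ω →
    0 < ∫⁻ x in ball x₀ (10 * (n + 2) * R), ‖g x‖ₑ ^ p →
    ∫⁻ x in ball x₀ (10 * (n + 2) * R), ‖g x‖ₑ ^ p ≤ 2 ^ J * ∫⁻ x in ball x₀ R, ‖g x‖ₑ ^ p →
    IsMuckenhoupt q C (ball x₀ R) g

/-- For all solutions in the whole space `E` with `|u x| ≤ C' (1 + |x|) ^ d` almost everywhere and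
gradient `g` not almost everywhere zero, `|g|` is a Muckenhoupt weight, with `q` and `C`. -/
def EntireBound (E : Type) [NormedAddCommGroup E] [InnerProductSpace ℝ E] [FiniteDimensional ℝ E]
    [MeasurableSpace E] [BorelSpace E] (p d q : ℝ) (C : ℝ≥0) : Prop :=
  ∀ (u : E → ℝ) (g : E → E), IsWeakSol p univ u g →
    (∃ C' : ℝ, ∀ᵐ x, |u x| ≤ C' * (1 + ‖x‖) ^ d) → ¬ (∀ᵐ x, g x = 0) → IsMuckenhoupt q C univ g

end Pool.Agent.Helper20.PNS
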