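import Pool.Agent.Helper20.PN.Final
import Pool.Agent.Helper20.PNS.Defs

/-!
# The theorems on the p-Laplace equation in the form of `PNS/Defs.lean`
-/

open MeasureTheory Metric Set
open scoped ENNReal NNReal ContDiff InnerProductSpace

namespace Pool.Agent.Helper20.PNS

theorem weakSol {n : ℕ} {p : ℝ} {Ω : Set (EuclideanSpace ℝ (Fin n))}
    {u : EuclideanSpace ℝ (Fin n) → ℝ} {g : EuclideanSpace ℝ (Fin n) → EuclideanSpace ℝ (Fin n)}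
    (h : IsWeakSol p Ω u g) : PN.IsWeakSol p Ω u g := by
  obtain ⟨⟨h1, h2, h3⟩, h4, h5, h6⟩ := h
  refine ⟨⟨h1, h2, fun φ hφ i => ?_⟩, h4, h5, h6⟩
  rw [h3 φ hφ (EuclideanSpace.single i 1)]
  congr 1
  refine integral_congr_ae (Filter.Eventually.of_forall fun x => ?_)
  simp [EuclideanSpace.inner_single_right, mul_comm]

theorem main_local (n : ℕ) (hn : 3 ≤ n) : ∃ c : ℝ, ∃ m : ℕ, 0 < c ∧ ∀ J : ℕ, 1 ≤ J →
    ∃ q : ℝ, 1 < q ∧ ∃ C : ℝ≥0, ∀ p : ℝ, |p - 2| ≤ c / (J : ℝ) ^ m →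
      LocalBound (EuclideanSpace ℝ (Fin n)) n p J q C := by
  obtain ⟨c, m, hc, h⟩ := PN.final_local n hn
  refine ⟨c, m, hc, fun J hJ => ?_⟩
  obtain ⟨q, hq, C, h'⟩ := h J hJ
  exact ⟨q, hq, C, fun p hp Ω u g hΩ hu x₀ R hR hb h0 h1 =>
    h' p hp Ω u g hΩ (weakSol hu) x₀ R hR hb h0 h1⟩

theorem main_entire (n : ℕ) (hn : 3 ≤ n) : ∃ c : ℝ, ∃ m : ℕ, 0 < c ∧ ∀ d : ℝ, 0 ≤ d →
    ∃ q : ℝ, 1 < q ∧ ∃ C : ℝ≥0, ∀ p : ℝ, |p - 2| ≤ c / (1 + d) ^ m →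
      EntireBound (EuclideanSpace ℝ (Fin n)) p d q C := by
  obtain ⟨c, m, hc, h⟩ := PN.final_entire n hn
  refine ⟨c, m, hc, fun d hd => ?_⟩
  obtain ⟨q, hq, C, h'⟩ := h d hd
  refine ⟨q, hq, C, fun p hp u g hu hgr hg => ?_⟩
  obtain ⟨h1, h2⟩ := h' p hp u g (weakSol hu) hgr hg
  refine ⟨?_, fun y r hr _ => h2 y r hr⟩
  rw [Measure.restrict_univ]
  exact h1

end Pool.Agent.Helper20.PNS
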